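import Pool.Agent.R811.Abc.Small
import Pool.Agent.R811.VS.Detect

/-!
# Vassiliev invariants detect the knottedness of almost all rings of tangles of bounded size

Definitions (`Pool.Agent.R811.Abc.Defs`, `Pool.Agent.R811.Abc.Final`, `Pool.Agent.R811.Abc.Bdd`,
`Pool.Agent.R811.Abc.Small`; starting library `Pool.Agent.H891R2.RF.Defs`, `Pool.Agent.H891R2.MT.Defs`,
`Pool.Agent.H891R2.Jones.Diagram`):

* `Outer4`: marked points, arcs, crossings and four corners (`corner t r`, `t` top, `r` right). It is used
  for tangles with four ends and for the part of a diagram outside of a box; `size`: the number of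
  crossings plus the number of marked points (a tangle diagram with `n` crossings and without closed
  circles has `4 n + 4` marked points: the ends of the crossings and the corners);
* `IsTangle T`: in every state of `T` two different curves join the four corners in pairs, both
  horizontally or both vertically, never diagonally (every tangle diagram drawn in a rectangle has this
  property);
* `ring W l`: the diagram obtained from the outside `W` by filling its box with the tangles of the list
  `l`, side by side; `plain`: the outside which consists of two horizontal strands, so that
  `ring plain l` is the ring `T₁ + T₂ + ⋯ + Tₙ` (numerator closure of the sum) of the tangles;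
* `Orients D U`: the oriented diagram `D` is `U` with some directions; `D.IsClosed`: the pieces of `D` form
  closed oriented curves;
* `JonesRow q T`: `T` behaves like a row of `q` crossings: up to one unit `± A^m` the Kauffman bracket of
  every diagram which contains `T` is not changed if `T` is replaced by `|q|` crossings in a row, of
  the kind given by the sign of `q`; `IsRow T`: there is such a `q`; `JonesCut T`: the same with two
  vertical strands in place of a row;
* `brH W`, `brV W`: the brackets of `W` with two horizontal / vertical strands in the box,
  `dd = -A² - A⁻²`; `IsU f`: `f = ± A^m`;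
* `Exc W l`, the exceptional cases: `W` behaves like a vertical cut (`brV W = dd * brH W`, and `brH W` is
  a unit) and the brackets of the vertical closures of all tangles of `l` are units; or
  `brV W` is a unit, one tangle of `l` behaves like two vertical strands and the brackets of the vertical
  closures of all others are units.

Vassiliev invariants: `Pool.Agent.H832R3.VJ.Defs` (`Dia`: an oriented diagram with the finite set of its
marked points; `IsVassiliev n v`: `v` is an invariant of oriented links of order at most `n`;
`Separated d X Y`: some integer valued Vassiliev invariant of order at most `d` has different values on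
`X` and `Y`; `unknot`).
-/

set_option autoImplicit false

namespace Pool.Agent.Results.MP_5f6b43_gt.BoundedTangles

open LaurentPolynomial Pool.Agent.H891R2.Jones Pool.Agent.H891R2.MT Pool.Agent.H891R2.RF
  Pool.Agent.R811.Abc Pool.Agent.H832R3.VJ

theorem isU_one : IsU (1 : ℤ[T;T⁻¹]) := ⟨0, 1, Or.inl rfl, by simp⟩

open Classical in
/-- For every `s` there is a number `N` such that the following holds.

* Let `D` be a closed oriented ring `T₁ + ⋯ + Tₙ` of arbitrarily many tangles, each of which behaves like
  a row of crossings or has size at most `s`. Then some Vassiliev invariant of order at most the number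
  of crossings plus twice the number of marked points of `D` has different values on `D` and the unknot;
  or at most `N` of the tangles do not behave like rows and the total number `∑ q i` of the crossings of
  the rows has absolute value at most `N`; or one of the tangles behaves like two vertical strands and the
  vertical closures of all others have trivial Jones polynomials up to a unit.
* The same holds if the box of an arbitrary outside `W` of size at most `s` is filled with the tangles,
  with the exceptional cases `Exc W l`. -/
theorem result (s : ℕ) : ∃ N : ℕ,
    (∀ l : List Outer4, (∀ T ∈ l, IsTangle T) → (∀ T ∈ l, IsRow T ∨ size T ≤ s) →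
      ∀ D : Diagram (puts plain l).P, Orients D (ring plain l) → D.IsClosed →
        Separated (D.crossings.length + 2 * Fintype.card (puts plain l).P)
          ⟨_, inferInstance, D⟩ unknot ∨
        (l.countP (fun T => ¬ IsRow T) ≤ N ∧
          ∀ q : Outer4 → ℤ, (∀ T ∈ l, JonesRow (q T) T ∨ (¬ IsRow T ∧ q T = 0)) →
            |(l.map q).sum| ≤ N) ∨
        ∃ l₁ T₀ l₂, l = l₁ ++ T₀ :: l₂ ∧ JonesCut T₀ ∧ ∀ T ∈ l₁ ++ l₂, IsU (brV T)) ∧
    ∀ (W : Outer4) (l : List Outer4), size W ≤ s →
      (∀ T ∈ l, IsTangle T) → (∀ T ∈ l, IsRow T ∨ size T ≤ s) →
      ∀ D : Diagram (puts W l).P, Orients D (ring W l) → D.IsClosed →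
        Separated (D.crossings.length + 2 * Fintype.card (puts W l).P)
          ⟨_, inferInstance, D⟩ unknot ∨
        (l.countP (fun T => ¬ IsRow T) ≤ N ∧
          ∀ q : Outer4 → ℤ, (∀ T ∈ l, JonesRow (q T) T ∨ (¬ IsRow T ∧ q T = 0)) →
            |(l.map q).sum| ≤ N) ∨ Exc W l := by
  obtain ⟨N, hN⟩ := small (s + 4)
  refine ⟨N, ?_, ?_⟩
  · intro l hT hl D hD _
    have : Nonempty (puts plain l).P := ⟨(puts plain l).corner false false⟩
    by_cases hf : D.fPoly = 1
    · right
      have hp : size plain ≤ s + 4 := by
        have : size plain = 4 := rfl
        omega
      rcases hN plain l hp hT (fun T h => (hl T h).imp_right fun h => by omega)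
        (IsU.bracket D _ hD (by rw [hf]; exact isU_one)) with h | h
      · exact Or.inl h
      · right
        rcases h with ⟨h1, _⟩ | ⟨_, h1⟩
        · exfalso
          have := congrArg ez h1
          rw [brV_plain, map_one, map_mul, ez_dd, zero_mul] at this
          exact one_ne_zero this
        · exact h1
    · exact Or.inl (Pool.Agent.R811.VS.detect D hf)
  · intro W l hW hT hl D hD _
    have : Nonempty (puts W l).P := ⟨(puts W l).corner false false⟩
    by_cases hf : D.fPoly = 1
    · right
      exact hN W l (by omega) hT (fun T h => (hl T h).imp_right fun h => by omega)
        (IsU.bracket D _ hD (by rw [hf]; exact isU_one))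
    · exact Or.inl (Pool.Agent.R811.VS.detect D hf)

end Pool.Agent.Results.MP_5f6b43_gt.BoundedTangles
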