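import Pool.Agent.R811.VS.Choices

/-!
# Vassiliev invariants of order two and the diagrams with a given shadow

Diagrams (starting library `Pool.Agent.H891R2.Jones.Diagram`): `Diagram P` (oriented link diagrams with marked
points `P`), `Diagram.IsClosed` (the pieces fit together to closed oriented curves).
`Pool.Agent.TH561.PK.Defs` (starting library): `IsKnot D` (all marked points are on one curve).

Vassiliev invariants: `Pool.Agent.H832R3.VJ.Defs` (starting library; `Dia`: an oriented diagram with the finite
set of its marked points; `IsVassiliev n v`: `v` is an invariant of oriented links of order at most `n`;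
`Separated d X Y`: some integer valued Vassiliev invariant of order at most `d` has different values on `X` and
`Y`; `unknot`; `positive x`, `negative x`: the positive and the negative one of the crossing `x` and the crossing
`x` with over- and under-strand exchanged).

`Pool.Agent.R811.Cross.Defs`:

* `Shadow n`: the shadow of an oriented knot diagram with `n` crossings (a Gauss code): the `2 n` edges of the curve are
  numbered in the order in which one runs through them, `next e` is the edge after `e`; the double point `i` is
  passed between the edges `p i` and `next (p i)` and between the edges `q i` and `next (q i)`, every edge is one of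
  the edges `p i`, `q i`; `left i` says whether the second strand crosses the first one from the right to the left
  or from the left to the right.  Every oriented knot diagram with `n ≥ 1` crossings in the plane has a shadow of
  this form (planarity is not needed in the theorem);
* `G.diagram s`: the diagram with the shadow `G` in which the crossing `i` is positive for `s i = true` and
  negative for `s i = false`;
* `G.Interlaced i j`: running through the curve one meets `j` exactly once between the two passages through `i`.
  In a plane diagram the crossings which are not interlaced with any other one are the nugatory crossings.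

`Pool.Agent.R811.Cross.Bigon`: `G.Antiparallel i j`: there is an edge from `i` to `j`, and on the two other strands at
`i` and `j` an edge from `j` to `i` (an antiparallel bigon, for instance).

`Pool.Agent.R811.VS.Choices`: `dia G s`: the diagram `G.diagram s` with its set of marked points.
-/

set_option autoImplicit false

namespace Pool.Agent.Results.MP_5f6b43_gt.CrossingChoices

open Finset Pool.Agent.H891R2.Jones Pool.Agent.H832R3.VJ Pool.Agent.R811.Cross Pool.Agent.R811.VS

open Classical in
/-- Let `G` be the shadow of an oriented knot diagram with `n` crossings.  The `2 ^ n` diagrams `G.diagram s` with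
this shadow are closed oriented diagrams of knots, and for every diagram `X`, for instance for the unknot:

* If two double points of `G` are interlaced, then at least one quarter of the `2 ^ n` diagrams is separated from
  `X` by Vassiliev invariants of order two (or less).
* If there are `ν` pairwise disjoint pairs of interlaced double points, then all diagrams with this shadow except a
  proportion of at most `(162 / ν) ^ (1/4)` are separated from `X` by Vassiliev invariants of order two.
* If every double point is interlaced with another one and no two double points `i ≠ j` are the vertices of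
  an antiparallel bigon, then this holds with the proportion `(1620 / n) ^ (1/4)`. -/
theorem result (n : ℕ) (G : Shadow n) :
    (∀ s, (G.diagram s).IsClosed ∧ Pool.Agent.TH561.PK.IsKnot (G.diagram s)) ∧
    ∀ X : Dia,
      ((∃ i j, G.Interlaced i j) →
        4 * #{s : Fin n → Bool | ¬ Separated 2 (dia G s) X} ≤ 3 * 2 ^ n) ∧
      (∀ (ν : ℕ) (u w : Fin ν → Fin n), Function.Injective (Sum.elim u w) →
        (∀ k, G.Interlaced (u k) (w k)) →
        ν * #{s : Fin n → Bool | ¬ Separated 2 (dia G s) X} ^ 4 ≤ 162 * 16 ^ n) ∧
      ((∀ i, ∃ j, G.Interlaced i j) → (∀ i j, i ≠ j → ¬ G.Antiparallel i j) →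
        n * #{s : Fin n → Bool | ¬ Separated 2 (dia G s) X} ^ 4 ≤ 1620 * 16 ^ n) := by
  refine ⟨fun s => ⟨by convert isClosed G s, isKnot G s⟩, fun X => ?_⟩
  have hsub : #{s : Fin n → Bool | ¬ Separated 2 (dia G s) X} ≤
      #{s : Fin n → Bool | F G s = moment 2 X.D.fPoly} := by
    apply Finset.card_le_card
    intro s hs
    rw [Finset.mem_filter] at hs ⊢
    exact ⟨hs.1, F_of_not_separated G s X hs.2⟩
  refine ⟨?_, ?_, ?_⟩
  · rintro ⟨i, j, hij⟩
    exact (Nat.mul_le_mul_left 4 hsub).trans (quarter2 G hij _)
  · intro ν u w h1 h2
    exact (Nat.mul_le_mul_left ν (Nat.pow_le_pow_left hsub 4)).trans (anti2 G u w h1 h2 _)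
  · intro h1 h2
    obtain ⟨ν, u, w, h3, h4, h5⟩ := matching G h1 h2
    have h := (Nat.mul_le_mul_left ν (Nat.pow_le_pow_left hsub 4)).trans (anti2 G u w h3 h4 _)
    calc n * #{s : Fin n → Bool | ¬ Separated 2 (dia G s) X} ^ 4
        ≤ (10 * ν) * #{s : Fin n → Bool | ¬ Separated 2 (dia G s) X} ^ 4 :=
          Nat.mul_le_mul_right _ h5
      _ = 10 * (ν * #{s : Fin n → Bool | ¬ Separated 2 (dia G s) X} ^ 4) := by ring
      _ ≤ 10 * (162 * 16 ^ n) := Nat.mul_le_mul_left _ h
      _ = 1620 * 16 ^ n := by ring

end Pool.Agent.Results.MP_5f6b43_gt.CrossingChoices
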