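import Pool.Agent.R811.Cross.OneSide
import Pool.Agent.R811.VS.Detect

/-!
# Vassiliev invariants detect diagrams with a state which is dominated on one side

From the starting library (`Pool.Agent.H891R2.Jones.Diagram`, `Pool.Agent.H891R2.MT.Defs`,
`Pool.Agent.H891R2.DS.Defs`, `Pool.Agent.H891R2.DS.Final`):

* `Ribbon k`: ribbon graphs with `k` edges; `Ribbon.Planar`: connected and planar; `Γ.link (sg R)`: the
  unoriented link diagram with Tait graph `Γ` and one crossing at every edge, of the kind `-1` for the edges in `R`
  and `1` for the others (every connected link diagram with at least one crossing is of this form);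
  `Orients D U`: `D` is the unoriented diagram `U` with directions; `D.IsClosed`: the pieces form closed oriented
  curves;
* a state is a set `S` of edges (the bands of `Γ` which are kept in the smoothing); `Asm R S`: the set of the
  crossings which have the `A`-smoothing in the state `S`, its complement: those with the `B`-smoothing;
  `stateGraph Γ S`: the state graph; its vertices are the circles of `S`, and every crossing is an edge
  between the circles which it touches;
* `Dom G M`: every nonempty even subgraph (hence: every cycle) of `G` has at least two more edges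
  outside `M` than in `M`;
* `Nugatory Γ e`: the crossing `e` is nugatory (a bridge of the Tait graph or of its dual).

`Pool.Agent.R811.Cross.OneSide`: `IsPositiveSet D P`: `P` is the set of the positive crossings of `D`; `betti Γ S`:
the number of crossings minus the number of circles of the state `S` plus one.  If `Asm R S = P`, then `S` is the
smoothing according to the directions, its circles are the Seifert circles of `D` and its state graph is the
Seifert graph.

Vassiliev invariants (starting library `Pool.Agent.H832R3.VJ.Defs`; `Dia`: an oriented diagram with the finite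
set of its marked points; `IsVassiliev n v`: `v` is an invariant of oriented links of order at most `n`;
`Separated d X Y`: some integer valued Vassiliev invariant of order at most `d` has different values on `X` and
`Y`; `unknot`).
-/

set_option autoImplicit false

namespace Pool.Agent.Results.MP_5f6b43_gt.OneSidedStates

open Finset Pool.Agent.H891R2.Jones Pool.Agent.H891R2.MT Pool.Agent.H891R2.DS Pool.Agent.R811.OneSide
  Pool.Agent.H832R3.VJ

theorem length_eq {k : ℕ} (Γ : Ribbon k) (R : Finset (Fin k)) (D : Diagram (Ribbon.Pt (sg R)))
    (hD : Orients D (Γ.link (sg R))) : D.crossings.length = k := by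
  have h := congrArg List.length hD.2
  rw [List.length_map] at h
  rw [h]
  have hs : ∀ e, (sg R e).natAbs = 1 := by
    intro e
    unfold Pool.Agent.H891R2.DS.sg
    split_ifs <;> rfl
  unfold Ribbon.link
  simp [List.length_flatMap, hs]

theorem card_pt {k : ℕ} (R : Finset (Fin k)) : Fintype.card (Ribbon.Pt (sg R)) = 4 * k := by
  have hs : ∀ e, (sg R e).natAbs = 1 := by
    intro e
    unfold Pool.Agent.H891R2.DS.sg
    split_ifs <;> rfl
  have h : ∀ e : Fin k, Fintype.card (Fin ((sg R e).natAbs + 1) × Bool) = 4 := by
    intro e
    rw [Fintype.card_prod, Fintype.card_fin, hs, Fintype.card_bool]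
  rw [Fintype.card_sigma, Finset.sum_congr rfl fun e _ => h e]
  simp [mul_comm]

/-- Let `D` be a connected oriented link diagram with `k > 0` crossings, `P` the set of its positive crossings, and
let `S` be a state with `m` `B`-smoothings and `m'` `A`-smoothings; `b` denotes the number of independent cycles of
its state graph, `n₋` and `n₊` the numbers of negative and positive crossings.  In each of the following cases
some Vassiliev invariant of order at most `9 k` has different values on `D` and the unknot:

* every cycle of the state graph has at least two more `A`-smoothed than `B`-smoothed crossings, and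
  `b ≠ 3 (n₋ - m)`;
* every cycle of the state graph has at least two more `B`-smoothed than `A`-smoothed crossings, and
  `b ≠ 3 (n₊ - m')`;
* every cycle of the Seifert graph has at least two more positive than negative crossings, or every cycle has at
  least two more negative than positive crossings, and some crossing is not nugatory. -/
theorem result {k : ℕ} (Γ : Ribbon k) (hΓ : Γ.Planar) (hk : 0 < k) (R S P : Finset (Fin k))
    (D : Diagram (Ribbon.Pt (sg R))) (hD : Orients D (Γ.link (sg R))) (_hc : D.IsClosed)
    (hP : IsPositiveSet D P)
    (h : (Dom (stateGraph Γ S) (Asm R S)ᶜ ∧ betti Γ S ≠ 3 * ((Pᶜ.card : ℤ) - ((Asm R S)ᶜ).card)) ∨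
      (Dom (stateGraph Γ S) (Asm R S) ∧ betti Γ S ≠ 3 * ((P.card : ℤ) - (Asm R S).card)) ∨
      (Asm R S = P ∧ (Dom (stateGraph Γ S) Pᶜ ∨ Dom (stateGraph Γ S) P) ∧ ∃ e, ¬ Nugatory Γ e)) :
    Separated (9 * k) ⟨_, inferInstance, D⟩ unknot := by
  have : Nonempty (Ribbon.Pt (sg R)) := ⟨⟨⟨0, hk⟩, 0, true⟩⟩
  have hf : D.fPoly ≠ 1 := by
    rcases h with ⟨h1, h2⟩ | ⟨h1, h2⟩ | ⟨hS, h1 | h1, e, he⟩
    · obtain ⟨h3, h4⟩ := upper Γ hΓ hk R S P h1 D hD hP
      intro hf
      apply h2
      have := coeff_one _ hf _ h4
      linarith
    · obtain ⟨h3, h4⟩ := lower Γ hΓ hk R S P h1 D hD hP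
      intro hf
      apply h2
      have := coeff_one _ hf _ h4
      linarith
    · obtain ⟨h3, h4⟩ := upper Γ hΓ hk R S P (by rw [hS]; exact h1) D hD hP
      rw [hS] at h3 h4
      simp only [sub_self, mul_zero, add_zero] at h3 h4
      have hb := betti_pos Γ hΓ S e he
      intro hf
      have := coeff_one _ hf _ h4
      linarith
    · obtain ⟨h3, h4⟩ := lower Γ hΓ hk R S P (by rw [hS]; exact h1) D hD hP
      rw [hS] at h3 h4
      simp only [sub_self, mul_zero, sub_zero] at h3 h4
      have hb := betti_pos Γ hΓ S e he
      intro hf
      have := coeff_one _ hf _ h4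
      linarith
  obtain ⟨n, hn, v, hv⟩ := Pool.Agent.R811.VS.detect D hf
  refine ⟨n, hn.trans ?_, v, hv⟩
  rw [length_eq Γ R D hD, card_pt]
  omega

end Pool.Agent.Results.MP_5f6b43_gt.OneSidedStates
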