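import Pool.Agent.R811.VS.Detect

/-!
# Vassiliev invariants detect the knottedness of rings of repeated tangles

Definitions (`Pool.Agent.R811.Abc.Defs`, `Pool.Agent.R811.Abc.Final`; starting library
`Pool.Agent.H891R2.RF.Defs`, `Pool.Agent.H891R2.MT.Defs`, `Pool.Agent.H891R2.Jones.Diagram`):

* `Outer4`: marked points, arcs, crossings and four corners (`corner t r`, `t` top, `r` right). It is used
  for tangles with four ends and for the part of a diagram outside of a box;
* `IsTangle T`: in every state of `T` two different curves join the four corners in pairs, both
  horizontally or both vertically, never diagonally (every tangle diagram drawn in a rectangle has this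
  property);
* `ring W l`: the diagram obtained from the outside `W` by filling its box with the tangles of the list
  `l`, side by side; `plain`: the outside which consists of two horizontal strands, so that
  `ring plain l` is the ring `T₁ + T₂ + ⋯ + Tₙ` (numerator closure of the sum) of the tangles;
* `Orients D U`: the oriented diagram `D` is `U` with some directions; `D.IsClosed`: the pieces of `D` form
  closed oriented curves;
* `JonesRow q T`: `T` behaves like a row of `q` crossings: up to one unit `± A^m` the Kauffman bracket of
  every diagram which contains `T` is not changed if `T` is replaced by `|q|` crossings in a row, of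
  the kind given by the sign of `q`;
* `brH W`, `brV W`: the brackets of `W` with two horizontal / vertical strands in the box,
  `dd = -A² - A⁻²`; `IsU f`: `f = ± A^m`.

Vassiliev invariants: `Pool.Agent.H832R3.VJ.Defs` (`Dia`: an oriented diagram with the finite set of its
marked points; `IsVassiliev n v`: `v` is an invariant of oriented links of order at most `n`;
`Separated d X Y`: some integer valued Vassiliev invariant of order at most `d` has different values on
`X` and `Y`; `unknot`).
-/

set_option autoImplicit false

namespace Pool.Agent.Results.MP_5f6b43_gt.RepeatedTangles

open LaurentPolynomial Pool.Agent.H891R2.Jones Pool.Agent.H891R2.MT Pool.Agent.H891R2.RF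
  Pool.Agent.R811.Abc Pool.Agent.H832R3.VJ

theorem isU_one : IsU (1 : ℤ[T;T⁻¹]) := ⟨0, 1, Or.inl rfl, by simp⟩

/-- Let `T 0, …, T (r-1)` be arbitrary tangles with four ends and let `c` be a word in the letters
`0, …, r-1` (the order of the tangles).

* Let `D` be the ring `T_{c 1} + ⋯ + T_{c n}` with some directions, and let every tangle occur at least
  `11` times in it. Then some Vassiliev invariant of order at most the number of crossings plus twice
  the number of marked points of `D` has different values on `D` and the unknot; or every `T i` behaves
  like a row of `q i` crossings, and the total number of crossings `q (c 1) + ⋯ + q (c n)` is `± 1`.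
* Let `W` be an arbitrary outside with `C` crossings and `p` marked points, let every tangle occur at
  least `2 C + 4 p + 5` times in its box, and let `D` be this diagram with some directions. Then `D` is
  separated from the unknot by Vassiliev invariants of this order; or every `T i` behaves like a row of
  crossings; or `W` behaves like a vertical cut: `⟨W with vertical strands⟩ = d ⟨W with horizontal
  strands⟩`, the latter is a unit, and the closures of all `T i` by vertical strands have trivial Jones
  polynomials up to a unit. -/
theorem result (r : ℕ) (T : Fin r → Outer4) (hT : ∀ i, IsTangle (T i)) (c : List (Fin r)) :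
    ((∀ i, 11 ≤ c.count i) →
      ∀ D : Diagram (puts plain (c.map T)).P, Orients D (ring plain (c.map T)) → D.IsClosed →
        Separated (D.crossings.length + 2 * Fintype.card (puts plain (c.map T)).P)
          ⟨_, inferInstance, D⟩ unknot ∨
        ∃ q : Fin r → ℤ, (∀ i, JonesRow (q i) (T i)) ∧
          ((c.map q).sum = 1 ∨ (c.map q).sum = -1)) ∧
    ∀ W : Outer4, (∀ i, 2 * W.crossings.length + 4 * Fintype.card W.P + 5 ≤ c.count i) →
      ∀ D : Diagram (puts W (c.map T)).P, Orients D (ring W (c.map T)) → D.IsClosed →
        Separated (D.crossings.length + 2 * Fintype.card (puts W (c.map T)).P)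
          ⟨_, inferInstance, D⟩ unknot ∨
        (∃ q : Fin r → ℤ, ∀ i, JonesRow (q i) (T i)) ∨
          (brV W = dd * brH W ∧ IsU (brH W) ∧ ∀ i, IsU (brV (T i))) := by
  constructor
  · intro hc D hD _
    have : Nonempty (puts plain (c.map T)).P := ⟨(puts plain (c.map T)).corner false false⟩
    by_cases hf : D.fPoly = 1
    · exact Or.inr (plain_case T hT c hc (IsU.bracket D _ hD (by rw [hf]; exact isU_one)))
    · exact Or.inl (Pool.Agent.R811.VS.detect D hf)
  · intro W hc D hD _
    have : Nonempty (puts W (c.map T)).P := ⟨(puts W (c.map T)).corner false false⟩
    by_cases hf : D.fPoly = 1
    · exact Or.inr (general_case T hT W c hc (IsU.bracket D _ hD (by rw [hf]; exact isU_one)))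
    · exact Or.inl (Pool.Agent.R811.VS.detect D hf)

end Pool.Agent.Results.MP_5f6b43_gt.RepeatedTangles
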